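import Pool.Agent.Socle.Correspond

set_option autoImplicit false

/-!
# Graded socle multiplicities over `GL_n(q)` (MP_ff8c2f_al, Q1: the formula is true)

Definitions used in the statement are in `Pool/Agent/Socle/Defs.lean` and
`Pool/Agent/Socle/Action.lean`.
-/

namespace Pool.Agent.Results.MP_ff8c2f_al.SocleFormula

open Pool.Agent.Socle

/-- **The formula of Q1.** Let `p` be a prime, `K` a finite field of characteristic `p` with `q`
elements, `μ` a partition of `d` with `1 ≤ d ≤ p - 1` and at most `n` parts, and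
`0 ≤ k ≤ q - 2 - μ_1`. Then, with `V = K^n` and `G = GL_n(K)`,
`∑_m dim Hom_G(L(μ) ⊗ Det^k, S^m(V)) t^m` times `∏_{i < n} (1 - t^(q^n - q^i))` equals
`t^(k (q^n - 1) / (q - 1)) s_μ(t, t^q, …, t^(q^(n-1)))`. -/
theorem result (p : ℕ) [Fact p.Prime] (K : Type*) [Field K] [Fintype K] [CharP K p]
    (n : ℕ) (hn : 1 ≤ n) (μ : YoungDiagram) (hd1 : 1 ≤ μ.card) (hd : μ.card ≤ p - 1)
    (hμ : μ.colLen 0 ≤ n) (k : ℕ) (hk : k + μ.rowLen 0 + 2 ≤ Fintype.card K) :
    (PowerSeries.mk fun m => (socleMult K n μ k m : ℤ)) *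
        ∏ i ∈ Finset.range n,
          (1 - PowerSeries.X ^ (Fintype.card K ^ n - Fintype.card K ^ i)) =
      PowerSeries.X ^ (k * ((Fintype.card K ^ n - 1) / (Fintype.card K - 1))) *
        MvPolynomial.aeval (fun i : Fin n => (PowerSeries.X : PowerSeries ℤ) ^
          (Fintype.card K ^ (i : ℕ))) (schurPoly n μ) := by
  have hfac : ((μ.card.factorial : ℕ) : K) ≠ 0 := by
    intro h
    rw [CharP.cast_eq_zero_iff K p, (Fact.out : p.Prime).dvd_factorial] at h
    have := (Fact.out : p.Prime).two_le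
    omega
  have h1 : (PowerSeries.mk fun m => (socleMult K n μ k m : ℤ)) =
      (∑ T : {T : Fill n μ // IsSemistandard T},
        PowerSeries.X ^ (sh K k (T : Fill n μ))) * HD K n := by
    ext m
    rw [PowerSeries.coeff_mk, socleMult_eq hfac m hk, Finset.sum_mul, map_sum]
  have h2 : ∏ i ∈ Finset.range n,
      ((1 : PowerSeries ℤ) - PowerSeries.X ^ (Fintype.card K ^ n - Fintype.card K ^ i)) =
        ∏ i : Fin n, (1 - PowerSeries.X ^ (Fintype.card K ^ n - Fintype.card K ^ (i : ℕ))) :=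
    Finset.prod_range fun i =>
      ((1 : PowerSeries ℤ) - PowerSeries.X ^ (Fintype.card K ^ n - Fintype.card K ^ i))
  have hq : 2 ≤ Fintype.card K := Fintype.one_lt_card
  have h3 : (Fintype.card K ^ n - 1) / (Fintype.card K - 1) = NN K n := by
    rw [NN, ← Finset.sum_range fun i => Fintype.card K ^ i, Nat.geomSum_eq hq]
  rw [h1, h2, mul_assoc, hilbert_invariants, mul_one, h3, schurPoly, map_sum, Finset.mul_sum]
  symm
  rw [Finset.sum_subtype (p := IsSemistandard) _ (by simp)]
  refine Finset.sum_congr rfl fun T _ => ?_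
  symm
  rw [map_prod, sh, pow_add, wt, ← Finset.prod_pow_eq_pow_sum]
  congr 1
  refine Finset.prod_congr rfl fun c _ => ?_
  rw [MvPolynomial.aeval_X]

end Pool.Agent.Results.MP_ff8c2f_al.SocleFormula
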